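import Pool.Agent.CVR.Fin

set_option autoImplicit false

/-!
# The exact range of the second coefficient in the classes `CV(R₁, R₂)`

For `0 ≤ R₁ ≤ R₂` the second coefficients of the functions of the class fill exactly the annulus
`1 - R₂ ≤ |a|² ≤ 1 - R₁`, `|a| < 1`. The extreme values are attained only by the maps onto discs.
-/

namespace Pool.Agent.Results.MP_2970b2_an.ExactRange

open Set Metric Pool.Agent.CVR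

theorem result (R₁ R₂ : ℝ) (hR : 0 ≤ R₁) (h12 : R₁ ≤ R₂) :
    {a : ℂ | ∃ f : ℂ → ℂ, CV R₁ R₂ f ∧ a2 f = a} =
      {a : ℂ | 1 - R₂ ≤ ‖a‖ ^ 2 ∧ ‖a‖ ^ 2 ≤ 1 - R₁ ∧ ‖a‖ < 1} ∧
    ((∃ f : ℂ → ℂ, CV R₁ R₂ f) ↔ R₁ ≤ 1 ∧ 0 < R₂) ∧
    ((∃ f : ℂ → ℂ, CV R₁ R₂ f) →
      IsLUB {x : ℝ | ∃ f : ℂ → ℂ, CV R₁ R₂ f ∧ ‖a2 f‖ = x} (Real.sqrt (1 - R₁)) ∧
      IsLeast {x : ℝ | ∃ f : ℂ → ℂ, CV R₁ R₂ f ∧ ‖a2 f‖ = x} (Real.sqrt (max 0 (1 - R₂)))) ∧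
    ∀ f : ℂ → ℂ, CV R₁ R₂ f → (‖a2 f‖ ^ 2 = 1 - R₁ ∨ ‖a2 f‖ ^ 2 = 1 - R₂) →
      ∀ z ∈ ball (0 : ℂ) 1, f z = z / (1 - a2 f * z) := by
  have hmax : Real.sqrt (max 0 (1 - R₂)) = Real.sqrt (1 - R₂) := by
    rcases le_total (1 - R₂) 0 with h | h
    · rw [max_eq_left h, Real.sqrt_eq_zero_of_nonpos h, Real.sqrt_zero]
    · rw [max_eq_right h]
  refine ⟨range_eq hR, exists_iff hR h12, fun hex => ?_, fun f hf => (main_bounds hR hf).2.2.2⟩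
  rw [hmax]
  exact sup_min hR h12 ((exists_iff hR h12).mp hex)

end Pool.Agent.Results.MP_2970b2_an.ExactRange
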