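import Pool.Agent.CVR.Fin

set_option autoImplicit false

/-!
# The two-sided curvature bound at every point of the disc

For `f` in `CV(R₁, R₂)` and every `z` in the disc, the quantity
`(1 - |(1 - |z|²) f''(z) / (2 f'(z)) - conj z|²) / ((1 - |z|²) |f'(z)|)`, which at the origin is
`1 - |a₂|²`, lies between `R₁` and `R₂`; one equality at one point forces `f` to be a disc map.
-/

namespace Pool.Agent.Results.MP_2970b2_an.InvariantForm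

open Set Metric Pool.Agent.CVR

theorem result (R₁ R₂ : ℝ) (hR : 0 ≤ R₁) (f : ℂ → ℂ) (hf : CV R₁ R₂ f) :
    ∀ z ∈ ball (0 : ℂ) 1,
      R₁ * ((1 - ‖z‖ ^ 2) * ‖deriv f z‖) ≤
        1 - ‖((1 - ‖z‖ ^ 2 : ℝ) : ℂ) * deriv (deriv f) z / (2 * deriv f z) -
          starRingEnd ℂ z‖ ^ 2 ∧
      1 - ‖((1 - ‖z‖ ^ 2 : ℝ) : ℂ) * deriv (deriv f) z / (2 * deriv f z) -
          starRingEnd ℂ z‖ ^ 2 ≤ R₂ * ((1 - ‖z‖ ^ 2) * ‖deriv f z‖) ∧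
      ((1 - ‖((1 - ‖z‖ ^ 2 : ℝ) : ℂ) * deriv (deriv f) z / (2 * deriv f z) -
          starRingEnd ℂ z‖ ^ 2 = R₁ * ((1 - ‖z‖ ^ 2) * ‖deriv f z‖) ∨
        1 - ‖((1 - ‖z‖ ^ 2 : ℝ) : ℂ) * deriv (deriv f) z / (2 * deriv f z) -
          starRingEnd ℂ z‖ ^ 2 = R₂ * ((1 - ‖z‖ ^ 2) * ‖deriv f z‖)) →
        ∀ w ∈ ball (0 : ℂ) 1, f w = w / (1 - a2 f * w)) :=
  pointwise hR hf

end Pool.Agent.Results.MP_2970b2_an.InvariantForm
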