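import Pool.Agent.CVR.FinS

set_option autoImplicit false

/-!
# The second coefficient and the mean boundary curvature

The quantitative form of the upper bound: the mean of the boundary curvature and the third
coefficient enter the inequality, and the remainder controls the distance to a disc map.
-/

namespace Pool.Agent.Results.MP_2970b2_an.MeanCurvature

open Set Metric Pool.Agent.CVR

theorem result (f g₀ g₁ g₂ : ℂ → ℂ) (hf : DifferentiableOn ℂ f (ball 0 1)) (h1 : deriv f 0 = 1)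
    (H : Reg f g₀ g₁ g₂) :
    ‖a2 f‖ ^ 2 + 27 / 4 * ‖a3 f - a2 f ^ 2‖ ^ 2 + Real.circleAverage (curv g₁ g₂) 0 1 ≤ 1 ∧
    ∃ h : ℂ → ℂ, DifferentiableOn ℂ h (ball 0 1) ∧ h 0 = 1 ∧
      (∀ z ∈ ball (0 : ℂ) 1, deriv f z * h z ^ 2 = 1) ∧
      ∀ z ∈ ball (0 : ℂ) 1, ‖h z - (1 - a2 f * z)‖ ^ 2 ≤
        (1 - ‖a2 f‖ ^ 2 - Real.circleAverage (curv g₁ g₂) 0 1) *
          (‖z‖ ^ 4 / (3 * (1 - ‖z‖ ^ 2))) :=
  stability hf h1 H

end Pool.Agent.Results.MP_2970b2_an.MeanCurvature
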